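import Pool.Agent.Helper20.QP.St2

/-!
Project QD (MP_d112a4_gt), PART P, module GEN: generation by short elements.
-/

set_option autoImplicit false

open Filter Topology Matrix Set Metric MeasureTheory
open scoped ComplexConjugate ENNReal

namespace Pool.Agent.Helper60.QP

open Pool.Agent.Helper35.PM (hs Mat SL IsDiscrete)
open Pool.Agent.Helper20.QD
open Pool.Agent.Helper20.QP

/-- two neighbouring points of a subdivision of the segment from the centre are close -/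
theorem GEN_step {x : ℂ} (hx : x ∈ D) {N : ℕ} (hN : 1 ≤ N * (1 - ‖x‖ ^ 2)) (hN0 : 0 < N)
    {i : ℕ} (hi : i + 1 ≤ N) :
    ((((i : ℝ) / N : ℝ) : ℂ) * x ∈ D) ∧ (((((i + 1 : ℕ) : ℝ) / N : ℝ) : ℂ) * x ∈ D) ∧
    dl ((((i : ℝ) / N : ℝ) : ℂ) * x) (((((i + 1 : ℕ) : ℝ) / N : ℝ) : ℂ) * x) ≤ 1 := by
  have hx1 : ‖x‖ < 1 := by simpa using hx
  have hNr : (0 : ℝ) < N := by exact_mod_cast hN0
  have hx0 := norm_nonneg x
  have hi1 : ((i : ℝ) + 1) ≤ N := by exact_mod_cast hi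
  have hi0 : (0 : ℝ) ≤ i := Nat.cast_nonneg i
  have hn1 : ‖(((i : ℝ) / N : ℝ) : ℂ) * x‖ = (i : ℝ) / N * ‖x‖ := by
    rw [norm_mul, Complex.norm_real, Real.norm_of_nonneg (by positivity)]
  have hn2 : ‖((((i + 1 : ℕ) : ℝ) / N : ℝ) : ℂ) * x‖ = ((i : ℝ) + 1) / N * ‖x‖ := by
    rw [norm_mul, Complex.norm_real, Real.norm_of_nonneg (by positivity)]
    push_cast
    ring
  have hq1 : (i : ℝ) / N ≤ 1 := by
    rw [div_le_one hNr]
    linarith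
  have hq2 : ((i : ℝ) + 1) / N ≤ 1 := by
    rw [div_le_one hNr]
    linarith
  have hb1 : (i : ℝ) / N * ‖x‖ ≤ ‖x‖ := mul_le_of_le_one_left hx0 hq1
  have hb2 : ((i : ℝ) + 1) / N * ‖x‖ ≤ ‖x‖ := mul_le_of_le_one_left hx0 hq2
  refine ⟨?_, ?_, ?_⟩
  · rw [mem_ball_zero_iff, hn1]
    linarith
  · rw [mem_ball_zero_iff, hn2]
    linarith
  · have hdiff : ‖(((i : ℝ) / N : ℝ) : ℂ) * x - ((((i + 1 : ℕ) : ℝ) / N : ℝ) : ℂ) * x‖
        = 1 / N * ‖x‖ := by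
      have : (((i : ℝ) / N : ℝ) : ℂ) * x - ((((i + 1 : ℕ) : ℝ) / N : ℝ) : ℂ) * x
          = -(((1 / N : ℝ) : ℂ) * x) := by
        push_cast
        field_simp
        ring
      rw [this, norm_neg, norm_mul, Complex.norm_real, Real.norm_of_nonneg (by positivity)]
    unfold dl
    rw [hdiff, hn1, hn2]
    have hm : 0 < 1 - ‖x‖ ^ 2 := by nlinarith
    have hm1 : 1 / (N : ℝ) ≤ 1 - ‖x‖ ^ 2 := by
      rw [div_le_iff₀ hNr]
      linarith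
    have h1 : 1 - ‖x‖ ^ 2 ≤ 1 - ((i : ℝ) / N * ‖x‖) ^ 2 := by
      have := pow_le_pow_left₀ (by positivity) hb1 2
      linarith
    have h2 : 1 - ‖x‖ ^ 2 ≤ 1 - (((i : ℝ) + 1) / N * ‖x‖) ^ 2 := by
      have := pow_le_pow_left₀ (by positivity) hb2 2
      linarith
    rw [div_le_one (mul_pos (by linarith) (by linarith))]
    have h3 : (1 / (N : ℝ)) * (1 / N) ≤ (1 - ((i : ℝ) / N * ‖x‖) ^ 2)
        * (1 - (((i : ℝ) + 1) / N * ‖x‖) ^ 2) :=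
      mul_le_mul (by linarith) (by linarith) (by positivity) (by linarith)
    have h4 : (1 / (N : ℝ) * ‖x‖) ^ 2 ≤ (1 / (N : ℝ)) * (1 / N) := by
      have : (1 / (N : ℝ) * ‖x‖) ^ 2 = (1 / (N : ℝ)) * (1 / N) * ‖x‖ ^ 2 := by ring
      rw [this]
      have h5 : ‖x‖ ^ 2 ≤ 1 := by nlinarith
      exact mul_le_of_le_one_right (by positivity) h5
    linarith

theorem hGEN (hSUB : StSUB) (hMET : StMET) : StGEN := by
  obtain ⟨hinv, hmet, -, -, hhs, -, -⟩ := hMET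
  obtain ⟨hS1, -, -, hS4, -, -⟩ := hSUB
  intro b hb
  set c := Real.arsinh (Real.sqrt b) with hc
  have hc0 : 0 ≤ c := Real.arsinh_nonneg_iff.2 (Real.sqrt_nonneg b)
  have h10 : 0 ≤ Real.arsinh 1 := Real.arsinh_nonneg_iff.2 zero_le_one
  set R := 4 * c + 2 * Real.arsinh 1 with hR
  refine ⟨2 + 4 * Real.sinh (R / 2) ^ 2, ?_⟩
  intro Γ _ σ hF hC
  have h0D : (0 : ℂ) ∈ D := by simp
  have hdinv : ∀ (γ : Γ) (z w : ℂ), z ∈ D → w ∈ D →
      hd (mob (σ γ) z) (mob (σ γ) w) = hd z w := by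
    intro γ z w hz hw
    unfold hd
    rw [hinv (σ γ) z w (hF.su γ) hz hw]
  have hmap : ∀ (γ : Γ) (z : ℂ), z ∈ D → mob (σ γ) z ∈ D := fun γ z hz =>
    (hS1 (σ γ) (hF.su γ)).2.2.1.mapsTo hz
  have hcomp : ∀ (γ δ : Γ) (z : ℂ), z ∈ D → mob (σ (γ * δ)) z = mob (σ γ) (mob (σ δ) z) := by
    intro γ δ z hz
    rw [map_mul]
    exact (hS4 _ _ z ((hS1 (σ δ) (hF.su δ)).2.1 z (ball_subset_closedBall hz))).1
  have hone : ∀ z : ℂ, mob (σ 1) z = z := by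
    intro z
    simp [mob]
  have hinvl : ∀ (γ : Γ) (z : ℂ), z ∈ D → mob (σ γ) (mob (σ γ⁻¹) z) = z := by
    intro γ z hz
    rw [← hcomp γ γ⁻¹ z hz, mul_inv_cancel, hone]
  have hsym : ∀ z w : ℂ, z ∈ D → w ∈ D → hd z w = hd w z := fun z w hz hw =>
    (hmet z w 0 hz hw h0D).2.2.1
  have htri : ∀ z w u : ℂ, z ∈ D → w ∈ D → u ∈ D → hd z w ≤ hd z u + hd u w :=
    fun z w u hz hw hu => (hmet z w u hz hw hu).2.2.2.2.2
  set H := Subgroup.closure {γ : Γ | hs (σ γ : Mat) ≤ 2 + 4 * Real.sinh (R / 2) ^ 2} with hH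
  have hS : ∀ γ : Γ, hd 0 (mob (σ γ) 0) ≤ R → γ ∈ H := by
    intro γ h
    apply Subgroup.subset_closure
    change hs (σ γ : Mat) ≤ 2 + 4 * Real.sinh (R / 2) ^ 2
    have hm := hmet 0 (mob (σ γ) 0) 0 h0D (hmap γ 0 h0D) h0D
    rw [hhs _ (hF.su γ), ← hm.2.1]
    have h1 : Real.sinh (hd 0 (mob (σ γ) 0) / 2) ≤ Real.sinh (R / 2) :=
      Real.sinh_le_sinh.2 (by linarith)
    have h2 : 0 ≤ Real.sinh (hd 0 (mob (σ γ) 0) / 2) :=
      Real.sinh_nonneg_iff.2 (by linarith [hm.1])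
    have h3 := pow_le_pow_left₀ h2 h1 2
    linarith
  -- near elements
  have hnear : ∀ (δ : Γ) (z : ℂ), z ∈ D → hd 0 (mob (σ δ⁻¹) z) ≤ 2 * c →
      hd (mob (σ δ) 0) z ≤ 2 * c := by
    intro δ z hz h
    rw [← hinvl δ z hz, hdinv δ _ _ h0D (hmap _ _ hz)]
    exact h
  have hex : ∀ z : ℂ, z ∈ D → ∃ δ : Γ, hd 0 (mob (σ δ⁻¹) z) ≤ 2 * c := by
    intro z hz
    obtain ⟨γ, hγ⟩ := hC z hz
    refine ⟨γ⁻¹, ?_⟩
    rw [inv_inv]
    unfold hd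
    have := Real.arsinh_le_arsinh.2 (Real.sqrt_le_sqrt hγ)
    linarith
  have hstep : ∀ z w : ℂ, z ∈ D → w ∈ D → dl z w ≤ 1 →
      (∀ δ : Γ, hd 0 (mob (σ δ⁻¹) z) ≤ 2 * c → δ ∈ H) →
      ∀ δ : Γ, hd 0 (mob (σ δ⁻¹) w) ≤ 2 * c → δ ∈ H := by
    intro z w hz hw hzw hP δ hδ
    obtain ⟨δ', hδ'⟩ := hex z hz
    have h1 : δ' ∈ H := hP δ' hδ'
    have h2 : hd z w ≤ 2 * Real.arsinh 1 := by
      unfold hd
      have h3 : Real.sqrt (dl z w) ≤ 1 := Real.sqrt_le_one.2 hzw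
      have := Real.arsinh_le_arsinh.2 h3
      linarith
    have h4 : δ'⁻¹ * δ ∈ H := by
      apply hS
      have e1 : hd 0 (mob (σ (δ'⁻¹ * δ)) 0) = hd (mob (σ δ') 0) (mob (σ δ) 0) := by
        rw [hcomp _ _ _ h0D, ← hdinv δ' 0 _ h0D (hmap _ _ (hmap _ _ h0D)),
          hinvl δ' _ (hmap _ _ h0D)]
      rw [e1]
      have t1 := htri (mob (σ δ') 0) (mob (σ δ) 0) z (hmap _ _ h0D) (hmap _ _ h0D) hz
      have t2 := htri z (mob (σ δ) 0) w hz (hmap _ _ h0D) hw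
      have t3 := hnear δ' z hz hδ'
      have t4 := hnear δ w hw hδ
      rw [hsym _ _ (hmap _ _ h0D) hw] at t4
      linarith
    have h5 := H.mul_mem h1 h4
    rwa [mul_inv_cancel_left] at h5
  rw [eq_top_iff]
  intro γ _
  set x := mob (σ γ) 0 with hx
  have hxD : x ∈ D := hmap γ 0 h0D
  have hx1 : ‖x‖ < 1 := by simpa using hxD
  have hm : 0 < 1 - ‖x‖ ^ 2 := by nlinarith [norm_nonneg x]
  obtain ⟨N, hN⟩ := exists_nat_ge (1 / (1 - ‖x‖ ^ 2))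
  have hN1 : 1 ≤ N * (1 - ‖x‖ ^ 2) := by
    rw [div_le_iff₀ hm] at hN
    exact hN
  have hN0 : 0 < N := by
    rcases Nat.eq_zero_or_pos N with h | h
    · subst h
      simp at hN1
      linarith
    · exact h
  have hNr : (N : ℝ) ≠ 0 := by
    have : (0 : ℝ) < N := by exact_mod_cast hN0
    exact this.ne'
  have hind : ∀ i : ℕ, i ≤ N → ∀ δ : Γ, hd 0 (mob (σ δ⁻¹) ((((i : ℝ) / N : ℝ) : ℂ) * x)) ≤ 2 * c →
      δ ∈ H := by
    intro i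
    induction i with
    | zero =>
      intro _ δ hδ
      have h1 : hd 0 (mob (σ δ⁻¹) 0) ≤ 2 * c := by simpa using hδ
      have h2 : δ⁻¹ ∈ H := hS δ⁻¹ (by linarith)
      exact inv_mem_iff.1 h2
    | succ i ih =>
      intro hi
      obtain ⟨ha, hb', hab⟩ := GEN_step hxD hN1 hN0 hi
      exact hstep _ _ ha hb' hab (ih (by omega))
  apply hind N le_rfl γ
  have hNN : (((N : ℝ) / N : ℝ) : ℂ) * x = x := by
    rw [div_self hNr]
    simp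
  rw [hNN, hx, ← hcomp _ _ _ h0D, inv_mul_cancel, hone]
  have := (hmet 0 0 0 h0D h0D h0D).2.2.2.2.1.2 rfl
  rw [this]
  linarith

end Pool.Agent.Helper60.QP
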